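import Pool.Agent.Helper793.Cut4
import Pool.Agent.Helper793.FConv

set_option autoImplicit false
set_option linter.unusedSectionVars false

open MeasureTheory Metric Set Filter Topology
open scoped ENNReal NNReal
open Pool.Agent.Helper793.QEig Pool.Agent.Helper793.Sob Pool.Agent.Helper793.Cut
open Pool.Agent.Helper793.FEig (FP IsD normLq isD_of_mem normLq_coe)

namespace Pool.Agent.Results.MP_21f5b8_an.InfSign

variable {N : ℕ}

/-- `p = (u, ∇u)`, where `u` belongs to `D^{1,2}_0(Ω)`, has `‖u‖_q = 1` and is a weak solution of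
`-Δu = lam |u|^{q-2} u` in `Ω`: `u` is a `q`-eigenfunction of `Ω` for the `q`-eigenvalue `lam`. -/
def IsEigenfunction (q : ℝ) (Ω : Set (EuclideanSpace ℝ (Fin N))) (lam : ℝ) (p : FP N) : Prop :=
  IsD Ω p ∧ normLq q p.1 = 1 ∧
    ∀ ψ : EuclideanSpace ℝ (Fin N) → ℝ, Pool.Agent.Helper793.FEig.IsTest Ω ψ →
      ∫ x, inner ℝ (p.2 x) (gradient ψ x) = lam * ∫ x, |p.1 x| ^ (q - 2) * p.1 x * ψ x

/-- `u` has constant sign in `Ω`. -/
def ConstSign (Ω : Set (EuclideanSpace ℝ (Fin N))) (u : EuclideanSpace ℝ (Fin N) → ℝ) : Prop :=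
  (∀ᵐ x ∂volume, x ∈ Ω → 0 ≤ u x) ∨ (∀ᵐ x ∂volume, x ∈ Ω → u x ≤ 0)

/-- The `q`-eigenvalues of `Ω` having a constant-sign eigenfunction. -/
def SignEigenvalues (q : ℝ) (Ω : Set (EuclideanSpace ℝ (Fin N))) : Set ℝ :=
  {lam | ∃ p : FP N, IsEigenfunction q Ω lam p ∧ ConstSign Ω p.1}

/-! ### the domain -/

/-- left ends of the corridors -/
noncomputable def sl (j : ℕ) : ℝ := 1 - 1 / ((j : ℝ) + 1)

/-- right ends of the corridors -/
noncomputable def tl (j : ℕ) : ℝ := (sl j + sl (j + 1)) / 2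

theorem sl_mono : StrictMono sl := by
  intro a b hab
  have : (a:ℝ) < b := by exact_mod_cast hab
  have h : 1 / ((b:ℝ) + 1) < 1 / ((a:ℝ) + 1) := by
    apply one_div_lt_one_div_of_lt (by positivity)
    linarith
  unfold sl
  linarith

theorem sl_lt_one (j : ℕ) : sl j < 1 := by
  have : 0 < 1 / ((j:ℝ) + 1) := by positivity
  unfold sl
  linarith

theorem sl_nonneg (j : ℕ) : 0 ≤ sl j := by
  have : 1 / ((j:ℝ) + 1) ≤ 1 := by
    rw [div_le_one (by positivity)]
    have : (0:ℝ) ≤ j := by positivity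
    linarith
  unfold sl
  linarith

theorem sl_lt_tl (j : ℕ) : sl j < tl j := by
  have := sl_mono (Nat.lt_succ_self j)
  unfold tl
  linarith

theorem tl_lt_sl (j : ℕ) : tl j < sl (j + 1) := by
  have := sl_mono (Nat.lt_succ_self j)
  unfold tl
  linarith

theorem exists_sl_gt {y : ℝ} (hy : y < 1) : ∃ j, y < sl j := by
  obtain ⟨j, hj⟩ := exists_nat_one_div_lt (show 0 < 1 - y by linarith)
  exact ⟨j, by unfold sl; linarith⟩

/-- the `j`-th room -/
def room (i0 : Fin N) (j : ℕ) : Set (EuclideanSpace ℝ (Fin N)) :=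
  ball 0 1 ∩ {x | tl j < x i0 ∧ x i0 < sl (j + 1)}

/-- the chain of rooms and corridors -/
def dom (i0 i1 : Fin N) (e : ℕ → ℝ) : Set (EuclideanSpace ℝ (Fin N)) :=
  ball 0 1 ∩ {x | ∀ j, sl j ≤ x i0 → x i0 ≤ tl j → |x i1| < e j}

theorem coord_le_norm (x : EuclideanSpace ℝ (Fin N)) (i : Fin N) : |x i| ≤ ‖x‖ := by
  have := EuclideanSpace.norm_eq x
  rw [this]
  apply Real.le_sqrt_of_sq_le
  have h1 : |x i| ^ 2 = ‖x i‖ ^ 2 := by rw [Real.norm_eq_abs]
  rw [h1]
  exact Finset.single_le_sum (f := fun i => ‖x i‖ ^ 2) (fun i _ => by positivity) (Finset.mem_univ i)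

theorem norm_le_of_coord {x y : EuclideanSpace ℝ (Fin N)} (h : ∀ i, |y i| ≤ |x i|) : ‖y‖ ≤ ‖x‖ := by
  rw [EuclideanSpace.norm_eq, EuclideanSpace.norm_eq]
  apply Real.sqrt_le_sqrt
  apply Finset.sum_le_sum
  intro i _
  rw [Real.norm_eq_abs, Real.norm_eq_abs]
  have := h i
  gcongr

theorem room_open (i0 : Fin N) (j : ℕ) : IsOpen (room i0 j) := by
  have h1 : IsOpen {x : EuclideanSpace ℝ (Fin N) | tl j < x i0} :=
    isOpen_lt continuous_const (by fun_prop)
  have h2 : IsOpen {x : EuclideanSpace ℝ (Fin N) | x i0 < sl (j + 1)} :=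
    isOpen_lt (by fun_prop) continuous_const
  exact isOpen_ball.inter (h1.inter h2)

theorem room_nonempty (i0 : Fin N) (j : ℕ) : (room i0 j).Nonempty := by
  have h1 := tl_lt_sl j
  have h2 := sl_lt_one (j + 1)
  have h3 := sl_nonneg j
  have h4 := sl_lt_tl j
  refine ⟨EuclideanSpace.single i0 ((tl j + sl (j + 1)) / 2), ?_, ?_⟩
  · rw [mem_ball, dist_zero_right, PiLp.norm_single, Real.norm_eq_abs, abs_lt]
    constructor <;> linarith
  · rw [mem_ofPred_eq]
    simp only [PiLp.single_apply, if_true]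
    constructor <;> linarith

theorem room_subset (i0 i1 : Fin N) (e : ℕ → ℝ) (j : ℕ) : room i0 j ⊆ dom i0 i1 e := by
  rintro x ⟨hx, hx1, hx2⟩
  refine ⟨hx, ?_⟩
  intro k hk1 hk2
  exfalso
  rcases le_or_gt k j with h | h
  · have h3 : tl k ≤ tl j := by
      have h4 := sl_mono.monotone h
      have h5 := sl_mono.monotone (Nat.succ_le_succ h)
      unfold tl
      simp only [Nat.succ_eq_add_one] at h5
      linarith
    linarith
  · have h3 : sl (j + 1) ≤ sl k := sl_mono.monotone h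
    linarith

theorem dom_open (i0 i1 : Fin N) (e : ℕ → ℝ) : IsOpen (dom i0 i1 e) := by
  rw [isOpen_iff_mem_nhds]
  rintro x ⟨hx, hxc⟩
  have hx1 : x i0 < 1 := by
    rw [mem_ball, dist_zero_right] at hx
    exact (le_abs_self _).trans_lt ((coord_le_norm x i0).trans_lt hx)
  obtain ⟨J, hJ⟩ := exists_sl_gt hx1
  have h1 : ball (0 : EuclideanSpace ℝ (Fin N)) 1 ∈ 𝓝 x := isOpen_ball.mem_nhds hx
  have h2 : {y : EuclideanSpace ℝ (Fin N) | y i0 < sl J} ∈ 𝓝 x :=
    (isOpen_lt (by fun_prop) continuous_const).mem_nhds hJ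
  have h3 : (⋂ j ∈ {j | j < J}, {y : EuclideanSpace ℝ (Fin N) | sl j ≤ y i0 → y i0 ≤ tl j → |y i1| < e j}) ∈ 𝓝 x := by
    rw [biInter_mem (Set.finite_lt_nat J)]
    intro j _
    have ho : IsOpen ({y : EuclideanSpace ℝ (Fin N) | y i0 < sl j} ∪ {y | tl j < y i0} ∪ {y | |y i1| < e j}) :=
      ((isOpen_lt (by fun_prop) continuous_const).union (isOpen_lt continuous_const (by fun_prop))).union
        (isOpen_lt (by fun_prop) continuous_const)
    have hs : ({y : EuclideanSpace ℝ (Fin N) | y i0 < sl j} ∪ {y | tl j < y i0} ∪ {y | |y i1| < e j}) ⊆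
        {y | sl j ≤ y i0 → y i0 ≤ tl j → |y i1| < e j} := by
      rintro y ((hy | hy) | hy) h4 h5
      · have hy' : y i0 < sl j := hy
        linarith
      · have hy' : tl j < y i0 := hy
        linarith
      · exact hy
    refine mem_of_superset (ho.mem_nhds ?_) hs
    by_cases h4 : x i0 < sl j
    · exact Or.inl (Or.inl h4)
    · by_cases h5 : tl j < x i0
      · exact Or.inl (Or.inr h5)
      · exact Or.inr (hxc j (not_lt.mp h4) (not_lt.mp h5))
  filter_upwards [h1, h2, h3] with y a1 a2 a3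
  refine ⟨a1, ?_⟩
  intro j hj1 hj2
  rcases lt_or_ge j J with h | h
  · have a4 := mem_iInter₂.mp a3 j h
    exact a4 hj1 hj2
  · exfalso
    have h5 : sl J ≤ sl j := sl_mono.monotone h
    have a2' : y i0 < sl J := a2
    linarith

theorem dom_connected {i0 i1 : Fin N} (hne : i0 ≠ i1) {e : ℕ → ℝ} (he : ∀ j, 0 < e j) :
    IsConnected (dom i0 i1 e) := by
  set Z : Set (EuclideanSpace ℝ (Fin N)) := ball 0 1 ∩ {x | x i1 = 0} with hZ
  have hZc : Convex ℝ Z := by
    apply (convex_ball _ _).inter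
    intro x hx y hy a b _ _ _
    rw [mem_ofPred_eq] at hx hy ⊢
    rw [PiLp.add_apply, PiLp.smul_apply, PiLp.smul_apply, hx, hy]
    simp
  have hZs : Z ⊆ dom i0 i1 e := by
    rintro x ⟨hx, hx1⟩
    refine ⟨hx, fun j _ _ => ?_⟩
    rw [mem_ofPred_eq] at hx1
    rw [hx1, abs_zero]
    exact he j
  have h0 : (0 : EuclideanSpace ℝ (Fin N)) ∈ Z := ⟨mem_ball_self one_pos, by simp⟩
  refine ⟨⟨0, hZs h0⟩, ?_⟩
  apply isPreconnected_of_forall 0
  rintro x ⟨hx, hxc⟩
  set y : EuclideanSpace ℝ (Fin N) := x - (x i1) • EuclideanSpace.single i1 (1:ℝ) with hy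
  have hyi : ∀ i, y i = if i = i1 then 0 else x i := by
    intro i
    rw [hy, PiLp.sub_apply, PiLp.smul_apply]
    by_cases h : i = i1
    · subst h; simp
    · simp [h]
  have hyn : ‖y‖ ≤ ‖x‖ := by
    apply norm_le_of_coord
    intro i
    rw [hyi]
    split_ifs
    · rw [abs_zero]; positivity
    · exact le_rfl
  have hyZ : y ∈ Z := by
    refine ⟨?_, ?_⟩
    · rw [mem_ball, dist_zero_right] at hx ⊢
      exact hyn.trans_lt hx
    · rw [mem_ofPred_eq, hyi]
      simp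
  refine ⟨Z ∪ segment ℝ y x, ?_, Or.inl h0, Or.inr (right_mem_segment ℝ y x), ?_⟩
  · apply union_subset hZs
    intro z hz
    refine ⟨(convex_ball (0 : EuclideanSpace ℝ (Fin N)) 1).segment_subset hyZ.1 hx hz, ?_⟩
    obtain ⟨a, b, ha, hb, hab, rfl⟩ := hz
    intro j hj1 hj2
    have e0 : (a • y + b • x) i0 = x i0 := by
      rw [PiLp.add_apply, PiLp.smul_apply, PiLp.smul_apply, hyi, if_neg hne, smul_eq_mul, smul_eq_mul,
        ← add_mul, hab, one_mul]
    have e1 : (a • y + b • x) i1 = b * x i1 := by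
      rw [PiLp.add_apply, PiLp.smul_apply, PiLp.smul_apply, hyi, if_pos rfl, smul_eq_mul, smul_eq_mul,
        mul_zero, zero_add]
    rw [e0] at hj1 hj2
    rw [e1, abs_mul, abs_of_nonneg hb]
    have h5 := hxc j hj1 hj2
    have h6 : b ≤ 1 := by linarith
    calc b * |x i1| ≤ 1 * |x i1| := by gcongr
      _ = |x i1| := one_mul _
      _ < e j := h5
  · exact IsPreconnected.union y hyZ (left_mem_segment ℝ y x) hZc.isPreconnected
      (convex_segment y x).isPreconnected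

/-! ### the main result -/

theorem result_nn (N : ℕ) (hN : 2 ≤ N) (q : ℝ≥0) [Fact (1 ≤ (q : ℝ≥0∞))] (hq : 2 < q)
    (hq' : ((N : ℝ) - 2) * q < 2 * N) :
    ∃ Ω : Set (EuclideanSpace ℝ (Fin N)), IsOpen Ω ∧ IsConnected Ω ∧ Bornology.IsBounded Ω ∧
      (SignEigenvalues q Ω).Infinite := by
  have hq0 := q_pos (q := q)
  set i0 : Fin N := ⟨0, by omega⟩ with hi0
  set i1 : Fin N := ⟨1, by omega⟩ with hi1
  have hne : i0 ≠ i1 := by
    intro h
    rw [hi0, hi1, Fin.mk.injEq] at h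
    omega
  have hcut := fun j => cut_main (q := q) hN hq hq' hne (sl_lt_tl j) (room_open i0 j)
    (room_nonempty i0 j) inter_subset_left (fun x hx => hx.2.1)
  choose e he hmain using hcut
  set Ω := dom i0 i1 e with hΩ
  have hΩo : IsOpen Ω := dom_open i0 i1 e
  have hΩB : Ω ⊆ ball 0 1 := inter_subset_left
  have hΩb : Bornology.IsBounded Ω := isBounded_ball.subset hΩB
  refine ⟨Ω, hΩo, dom_connected hne he, hΩb, ?_⟩
  have hex := fun j => hmain j Ω hΩo hΩB (room_subset i0 i1 e j) (fun x hx => hx.2 j)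
  choose p hp hp1 hpnn hpmass hpeq using hex
  have hmem : ∀ j, ‖(p j).2‖ ^ 2 ∈ SignEigenvalues q Ω := by
    intro j
    refine ⟨(((p j).1 : EuclideanSpace ℝ (Fin N) → ℝ),
      ((p j).2 : EuclideanSpace ℝ (Fin N) → EuclideanSpace ℝ (Fin N))), ⟨?_, ?_, ?_⟩, Or.inl ?_⟩
    · exact isD_of_mem hN hΩb (hp j)
    · exact (normLq_coe (p j).1).trans (hp1 j)
    · intro ψ hψ
      exact hpeq j ψ hψ
    · filter_upwards [hpnn j] with x hx _
      exact hx
  intro hfin
  obtain ⟨K, hK⟩ := hfin.bddAbove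
  have hKj : ∀ j, ‖(p j).2‖ ^ 2 ≤ K := fun j => hK (hmem j)
  obtain ⟨C, α, hC, hα, htm⟩ := thin_mass (q := q) hN
    (isBounded_ball (x := (0 : EuclideanSpace ℝ (Fin N))) (r := 1)) hq.le hq'
  obtain ⟨ε, hε0, hε⟩ := exists_small_eps (C := C) (α := α) (M := 0) (K := Real.sqrt K) (Q := q)
    (η := 1 / 4) hα hq0 (by norm_num)
  obtain ⟨j, hj⟩ := exists_nat_one_div_lt (show 0 < 2 * ε by positivity)
  set c := (sl j + tl j) / 2 with hc
  have hc1 : c < 1 := by
    have h1 := sl_lt_one j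
    have h2 := tl_lt_sl j
    have h3 := sl_lt_one (j + 1)
    rw [hc]; linarith
  have hcτ : 1 - c ≤ 2 * ε := by
    have h1 := sl_lt_tl j
    have h2 : 1 - sl j = 1 / ((j:ℝ) + 1) := by unfold sl; ring
    rw [hc]; linarith
  have hm := htm Ω {x | c < x i0} (1 - c) (by linarith) hΩB (by
    intro φ hφ
    set w : EuclideanSpace ℝ (Fin N) := (1 - c) • EuclideanSpace.single i0 (1:ℝ) with hw
    have hw0 : w i0 = 1 - c := by rw [hw]; simp
    have hwn : ‖w‖ₑ = ENNReal.ofReal (1 - c) := by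
      have h1 : ‖(EuclideanSpace.single i0 (1:ℝ) : EuclideanSpace ℝ (Fin N))‖ₑ = 1 := by
        rw [← ofReal_norm, PiLp.norm_single, norm_one, ENNReal.ofReal_one]
      rw [hw, enorm_smul, Real.enorm_of_nonneg (by linarith), h1, mul_one]
    rw [← hwn]
    apply thin_poincare (hφ.1.of_le (by simp)) w MeasurableSet.univ (fun t x => by simp) (subset_univ _)
    intro x hx _
    by_contra hx'
    have h1 : x + w ∈ ball (0 : EuclideanSpace ℝ (Fin N)) 1 := hΩB (hφ.2.2 (subset_tsupport φ hx'))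
    rw [mem_ball, dist_zero_right] at h1
    have h2 := (le_abs_self _).trans_lt ((coord_le_norm (x + w) i0).trans_lt h1)
    rw [PiLp.add_apply, hw0] at h2
    have hx2 : c < x i0 := hx
    linarith) (p j) (hp j)
  have h3 : (C * (1 - c) ^ α * ‖(p j).2‖) ^ (q:ℝ) ≤ (C * (2 * ε) ^ α * Real.sqrt K) ^ (q:ℝ) := by
    have h4 : ‖(p j).2‖ ≤ Real.sqrt K := Real.le_sqrt_of_sq_le (hKj j)
    have h5 : (0:ℝ) ≤ 1 - c := by linarith
    have h6 : (1 - c) ^ α ≤ (2 * ε) ^ α := Real.rpow_le_rpow h5 hcτ hα.le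
    have h7 : 0 ≤ (1 - c) ^ α := Real.rpow_nonneg h5 _
    gcongr
  have h8 := hpmass j
  have h9 : (C * (2 * ε) ^ α * Real.sqrt K) ^ (q:ℝ) ≤ 1 / 4 := by
    have : (0:ℝ) ^ 2 * (2 * ε) ^ 2 = 0 := by ring
    rw [this, zero_add] at hε
    exact hε
  linarith

/-- **Main theorem.** For every `N ≥ 2` and every `2 < q < 2^*` there is a bounded connected open
set with infinitely many `q`-eigenvalues having a constant-sign eigenfunction. -/
theorem result (N : ℕ) (hN : 2 ≤ N) (q : ℝ) (hq : 2 < q) (hq' : ((N : ℝ) - 2) * q < 2 * N) :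
    ∃ Ω : Set (EuclideanSpace ℝ (Fin N)), IsOpen Ω ∧ IsConnected Ω ∧ Bornology.IsBounded Ω ∧
      (SignEigenvalues q Ω).Infinite := by
  lift q to ℝ≥0 using (by linarith) with q'
  have hq2 : 2 < q' := by exact_mod_cast hq
  have _ : Fact (1 ≤ (q' : ℝ≥0∞)) := ⟨by
    have : (1 : ℝ≥0) ≤ q' := le_trans (by norm_num) hq2.le
    exact_mod_cast this⟩
  exact result_nn N hN q' hq2 hq'

end Pool.Agent.Results.MP_21f5b8_an.InfSign
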